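import Pool.Agent.V119.LD.Tv

/-! # Smoothing along a locally compact group -/

set_option autoImplicit false

namespace Pool.Agent.V119.LD

open MeasureTheory Set Filter Topology
open scoped ENNReal
open Pool.Agent.TH277.MR

section haar

variable {H : Type*} [Group H] [TopologicalSpace H] [IsTopologicalGroup H] [LocallyCompactSpace H]
  [PolishSpace H] [MeasurableSpace H] [BorelSpace H] (lam : Measure H) [lam.IsHaarMeasure]

/-- translations of a finite measure with a density are continuous in variation -/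
lemma translate_tv {η : Measure H} [IsFiniteMeasure η] (hη : η ≪ lam) {ε : ℝ} (hε : 0 < ε) :
    ∀ᶠ h : H in 𝓝 1, ∀ C : Set H, MeasurableSet C →
      η.real ((fun k => h * k) ⁻¹' C) ≤ η.real C + ε := by
  have hfact : Fact ((1 : ℝ≥0∞) ≠ ∞) := ⟨ENNReal.one_ne_top⟩
  let _ := TopologicalSpace.upgradeIsCompletelyMetrizable H
  have hreg : lam.Regular := inferInstance
  set F : H → ℝ := fun x => (η.rnDeriv lam x).toReal with hF
  have hFi : Integrable F lam := Measure.integrable_toReal_rnDeriv
  have hFs : ∀ s : Set H, ∫ x in s, F x ∂lam = η.real s := fun s =>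
    Measure.setIntegral_toReal_rnDeriv hη s
  have hL : MemLp F 1 lam := memLp_one_iff_integrable.2 hFi
  set Fl : Lp ℝ 1 lam := hL.toLp F with hFl
  have hcont : Tendsto (fun h : H => DomMulAct.mk (h⁻¹) • Fl) (𝓝 1) (𝓝 Fl) := by
    have h1 : Continuous fun h : H => DomMulAct.mk (h⁻¹) • Fl := by
      have h2 : Continuous fun h : H => DomMulAct.mk (h⁻¹) :=
        DomMulAct.continuous_mk.comp continuous_inv
      exact h2.smul continuous_const
    have h2 := h1.tendsto 1
    rwa [inv_one, DomMulAct.mk_one, one_smul] at h2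
  have hev := (tendsto_iff_norm_sub_tendsto_zero.1 hcont).eventually (gt_mem_nhds hε)
  filter_upwards [hev] with h hh C hC
  have hinv : ∀ x : H, Measurable fun k : H => x * k := fun x => measurable_const_mul x
  have e1 : ∫ x in (fun k => h * k) ⁻¹' C, F x ∂lam = ∫ x in C, F (h⁻¹ * x) ∂lam := by
    have hmp : MeasurePreserving (fun k : H => h * k) lam lam := measurePreserving_mul_left lam h
    have h3 := hmp.setIntegral_preimage_emb (MeasurableEquiv.mulLeft h).measurableEmbedding
      (fun x => F (h⁻¹ * x)) C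
    rw [← h3]
    refine setIntegral_congr_fun (hinv h hC) fun x _ => ?_
    simp
  have hi2 : Integrable (fun x => F (h⁻¹ * x)) lam :=
    hFi.comp_mul_left h⁻¹
  have hDi : Integrable (fun x => |F (h⁻¹ * x) - F x|) lam := (hi2.sub hFi).abs
  have e2 : ∫ x, |F (h⁻¹ * x) - F x| ∂lam < ε := by
    have h3 : ‖DomMulAct.mk (h⁻¹) • Fl - Fl‖ = ∫ x, |F (h⁻¹ * x) - F x| ∂lam := by
      rw [L1.norm_eq_integral_norm]
      refine integral_congr_ae ?_
      have h4 : (DomMulAct.mk (h⁻¹) • Fl : Lp ℝ 1 lam) =ᵐ[lam] fun x => Fl (h⁻¹ * x) :=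
        DomMulAct.smul_Lp_ae_eq _ _
      have h5 : (fun x => Fl (h⁻¹ * x)) =ᵐ[lam] fun x => F (h⁻¹ * x) :=
        (measurePreserving_mul_left lam h⁻¹).quasiMeasurePreserving.ae_eq_comp hL.coeFn_toLp
      filter_upwards [Lp.coeFn_sub (DomMulAct.mk (h⁻¹) • Fl) Fl, h4, h5, hL.coeFn_toLp]
        with x h6 h7 h8 h9
      rw [h6, Pi.sub_apply, h7, h8, h9, Real.norm_eq_abs]
    rw [← h3]
    exact hh
  rw [← hFs, ← hFs, e1]
  have h6 : ∫ x in C, F (h⁻¹ * x) ∂lam ≤ ∫ x in C, (F x + |F (h⁻¹ * x) - F x|) ∂lam :=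
    integral_mono hi2.integrableOn (hFi.add hDi).integrableOn fun x => by
      have := le_abs_self (F (h⁻¹ * x) - F x)
      simp only
      linarith
  rw [integral_add hFi.integrableOn hDi.integrableOn] at h6
  have h7 : ∫ x in C, |F (h⁻¹ * x) - F x| ∂lam ≤ ∫ x, |F (h⁻¹ * x) - F x| ∂lam :=
    setIntegral_le_integral hDi (ae_of_all _ fun x => abs_nonneg _)
  linarith

end haar

section grp

variable {H : Type*} [Group H] [TopologicalSpace H] [IsTopologicalGroup H]
  {G : Type*} [Group G] [TopologicalSpace G]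
  {X : Type*} [TopologicalSpace X] [PolishSpace X] [MeasurableSpace X] [BorelSpace X]
  [MulAction G X] [ContinuousSMul G X]

/-- the elements of `H` which preserve `μ` -/
def inv (φ : H →* G) (μ : Measure X) : Set H := {h | μ.map (fun x => φ h • x) = μ}

lemma inv_eq (φ : H →* G) (μ : Measure X) : inv φ μ = ((stabG μ).comap φ : Set H) := rfl

/-- `ρ` is almost invariant under the elements near `1`, in variation -/
def NearInv (φ : H →* G) (ρ : Measure X) : Prop :=
  ∀ ε : ℝ, 0 < ε → ∀ᶠ h : H in 𝓝 1, ∀ B : Set X, MeasurableSet B →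
    ρ.real ((fun x => φ h • x) ⁻¹' B) ≤ ρ.real B + ε

lemma isOpen_inv [FirstCountableTopology H] (φ : H →* G) (hφ : Continuous φ) {μ ρ : Measure X}
    [IsFiniteMeasure μ] [IsFiniteMeasure ρ]
    (hz : ∀ g : G, μ.map (fun x => g • x) = μ ∨ μ ⟂ₘ μ.map fun x => g • x)
    (hns : ¬ μ ⟂ₘ ρ) (hA : NearInv φ ρ) : IsOpen (inv φ μ) := by
  rw [inv_eq]
  refine Subgroup.isOpen_of_mem_nhds _ (g := 1) ?_
  change ∀ᶠ h in 𝓝 (1 : H), h ∈ inv φ μ
  rw [Filter.eventually_iff_seq_eventually]
  intro h hh
  have hg : Tendsto (fun k => φ (h k)) atTop (𝓝 1) := by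
    have := (hφ.tendsto 1).comp hh
    rwa [map_one] at this
  exact eventually_stab hz hns hg fun ε hε => hh.eventually (hA ε hε)

lemma isClosed_inv [FirstCountableTopology H] (φ : H →* G) (hφ : Continuous φ) {μ : Measure X}
    [IsFiniteMeasure μ] : IsClosed (inv φ μ) := by
  have hm : ∀ h, Measurable fun x : X => φ h • x := fun h => measurable_const_smul _
  have e : inv φ μ = ⋂ f : BoundedContinuousFunction X ℝ,
      {h : H | ∫ x, f (φ h • x) ∂μ = ∫ x, f x ∂μ} := by
    ext h
    simp only [mem_iInter, mem_ofPred_eq, inv]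
    constructor
    · intro hh f
      conv_rhs => rw [← hh]
      rw [integral_map (hm h).aemeasurable f.continuous.aestronglyMeasurable]
    · intro hh
      have : IsFiniteMeasure (μ.map fun x => φ h • x) := Measure.isFiniteMeasure_map μ _
      refine ext_of_forall_integral_eq_of_IsFiniteMeasure fun f => ?_
      rw [integral_map (hm h).aemeasurable f.continuous.aestronglyMeasurable]
      exact hh f
  rw [e]
  refine isClosed_iInter fun f => isClosed_eq ?_ continuous_const
  refine continuous_of_dominated (F := fun (h : H) (x : X) => f (φ h • x))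
    (bound := fun _ => ‖f‖) (fun h => (f.continuous.measurable.comp (hm h)).aestronglyMeasurable)
    (fun h => ae_of_all _ fun x => f.norm_coe_le_norm _) (integrable_const _)
    (ae_of_all _ fun x => ?_)
  exact f.continuous.comp (hφ.smul continuous_const)

variable [LocallyCompactSpace H] [PolishSpace H] [MeasurableSpace H] [BorelSpace H]

/-- smoothing along the orbits of `H` -/
noncomputable def smear (φ : H →* G) (η : Measure H) (μ : Measure X) : Measure X :=
  (η.prod μ).map fun p => φ p.1 • p.2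

omit [IsTopologicalGroup H] [LocallyCompactSpace H] in
lemma meas_act {φ : H →* G} (hφ : Continuous φ) : Measurable fun p : H × X => φ p.1 • p.2 :=
  ((hφ.comp continuous_fst).smul continuous_snd).measurable

variable {φ : H →* G} (hφ : Continuous φ) {η : Measure H} [IsFiniteMeasure η] {μ : Measure X}
  [IsProbabilityMeasure μ]

include hφ in
lemma smear_apply {B : Set X} (hB : MeasurableSet B) :
    smear φ η μ B = ∫⁻ x, η {h | φ h • x ∈ B} ∂μ := by
  rw [smear, Measure.map_apply (meas_act hφ) hB,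
    Measure.prod_apply_symm (meas_act hφ hB)]
  rfl

include hφ in
lemma smear_apply' {B : Set X} (hB : MeasurableSet B) :
    smear φ η μ B = ∫⁻ h, μ ((fun x => φ h • x) ⁻¹' B) ∂η := by
  rw [smear, Measure.map_apply (meas_act hφ) hB, Measure.prod_apply (meas_act hφ hB)]
  rfl

include hφ in
lemma meas_sec {B : Set X} (hB : MeasurableSet B) : Measurable fun x => η {h | φ h • x ∈ B} :=
  measurable_measure_prodMk_right (meas_act hφ hB)

include hφ in
lemma smear_near (lam : Measure H) [lam.IsHaarMeasure] (hη : η ≪ lam) :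
    NearInv φ (smear φ η μ) := by
  have hfin : IsFiniteMeasure (smear φ η μ) := Measure.isFiniteMeasure_map _ _
  intro ε hε
  filter_upwards [translate_tv lam hη hε] with h hh B hB
  have hmB : MeasurableSet ((fun x : X => φ h • x) ⁻¹' B) := measurable_const_smul (φ h) hB
  have h1 : smear φ η μ ((fun x => φ h • x) ⁻¹' B) ≤ smear φ η μ B + ENNReal.ofReal ε := by
    rw [smear_apply hφ hmB, smear_apply hφ hB]
    calc ∫⁻ x, η {k | φ k • x ∈ (fun x => φ h • x) ⁻¹' B} ∂μ
        ≤ ∫⁻ x, (η {k | φ k • x ∈ B} + ENNReal.ofReal ε) ∂μ := by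
          refine lintegral_mono fun x => ?_
          have hC : MeasurableSet {k : H | φ k • x ∈ B} :=
            ((meas_act hφ).comp measurable_prodMk_right) hB
          have h2 := hh _ hC
          have e : {k | φ k • x ∈ (fun x => φ h • x) ⁻¹' B} =
              (fun k => h * k) ⁻¹' {k | φ k • x ∈ B} := by
            ext k
            simp [mul_smul]
          rw [e]
          rw [measureReal_def, measureReal_def] at h2
          have h3 := ENNReal.ofReal_le_ofReal h2
          rw [ENNReal.ofReal_add ENNReal.toReal_nonneg hε.le,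
            ENNReal.ofReal_toReal (measure_ne_top _ _),
            ENNReal.ofReal_toReal (measure_ne_top _ _)] at h3
          exact h3
      _ = ∫⁻ x, η {k | φ k • x ∈ B} ∂μ + ENNReal.ofReal ε := by
          rw [lintegral_add_right _ measurable_const, lintegral_const, measure_univ, mul_one]
  have h2 := ENNReal.toReal_mono (by finiteness) h1
  rw [ENNReal.toReal_add (measure_ne_top _ _) (by finiteness), ENNReal.toReal_ofReal hε.le] at h2
  exact h2

include hφ in
/-- `μ` is not singular to its smoothing if it is not carried by a set with small orbits -/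
lemma not_sing_smear (lam : Measure H) [lam.IsHaarMeasure] (hη : lam ≪ η)
    (h3 : ∀ E : Set X, MeasurableSet E → μ Eᶜ = 0 → ∃ x, lam {h | φ h • x ∈ E} ≠ 0) :
    ¬ μ ⟂ₘ smear φ η μ := by
  rintro ⟨s, hs, h1, h2⟩
  have hsc : MeasurableSet sᶜ := hs.compl
  rw [smear_apply hφ hsc, lintegral_eq_zero_iff (meas_sec hφ hsc)] at h2
  have hN : MeasurableSet {x : X | η {h | φ h • x ∈ sᶜ} = 0} :=
    meas_sec hφ hsc (measurableSet_singleton 0)
  obtain ⟨x, hx⟩ := h3 (sᶜ ∩ {x : X | η {h | φ h • x ∈ sᶜ} = 0}) (hsc.inter hN) (by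
    rw [compl_inter, compl_compl]
    refine measure_union_null h1 ?_
    exact h2)
  apply hx
  by_cases hne : {h : H | φ h • x ∈ sᶜ ∩ {x : X | η {h | φ h • x ∈ sᶜ} = 0}}.Nonempty
  · obtain ⟨h0, hh0⟩ := hne
    have h4 : η {k | φ k • φ h0 • x ∈ sᶜ} = 0 := hh0.2
    have h5 := hη h4
    have h6 := (quasiMeasurePreserving_mul_right lam h0⁻¹).preimage_null h5
    refine measure_mono_null (fun h hh => ?_) h6
    have h7 : φ h • x ∈ sᶜ := hh.1
    change φ (h * h0⁻¹) • φ h0 • x ∈ sᶜ
    rw [← mul_smul, ← map_mul, inv_mul_cancel_right]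
    exact h7
  · rw [not_nonempty_iff_eq_empty] at hne
    rw [hne, measure_empty]

include hφ in
lemma exists_point (lam : Measure H) [lam.IsHaarMeasure] (hη : η ≪ lam) (hη' : lam ≪ η)
    (h4 : lam (inv φ μ) ≠ 0) {E : Set X} (hE : MeasurableSet E) (hE' : μ Eᶜ = 0) :
    ∃ x, lam {h | φ h • x ∈ E} ≠ 0 := by
  by_contra hcon
  push Not at hcon
  have h5 : smear φ η μ E = 0 := by
    rw [smear_apply hφ hE]
    have : ∀ x, η {h | φ h • x ∈ E} = 0 := fun x => hη (hcon x)
    simp [this]
  rw [smear_apply' hφ hE] at h5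
  have hcl : MeasurableSet (inv φ μ) := (isClosed_inv φ hφ).measurableSet
  have h6 : ∫⁻ h in inv φ μ, μ ((fun x => φ h • x) ⁻¹' E) ∂η = 0 :=
    le_antisymm ((setLIntegral_le_lintegral _ _).trans h5.le) bot_le
  have h7 : ∫⁻ h in inv φ μ, μ ((fun x => φ h • x) ⁻¹' E) ∂η = ∫⁻ h in inv φ μ, 1 ∂η := by
    refine setLIntegral_congr_fun hcl fun h hh => ?_
    have hh' : μ.map (fun x => φ h • x) = μ := hh
    have h8 : μ ((fun x => φ h • x) ⁻¹' E) = μ E := by
      rw [← Measure.map_apply (measurable_const_smul _) hE, hh']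
    change μ ((fun x => φ h • x) ⁻¹' E) = 1
    rw [h8]
    exact (prob_compl_eq_zero_iff hE).1 hE'
  rw [h7, setLIntegral_one] at h6
  exact h4 (hη' h6)

end grp

end Pool.Agent.V119.LD
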