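import Pool.Agent.TH277.MR.Q

/-! # Almost invariant measures and translates of ergodic measures -/

set_option autoImplicit false

namespace Pool.Agent.V119.LD

open MeasureTheory Set Filter Topology
open scoped ENNReal
open Pool.Agent.TH277.MR

section tv

variable {X : Type*} [MeasurableSpace X]

/-- comparison of the integrals of a bounded function -/
lemma integral_tv {α β : Measure X} [IsFiniteMeasure α] [IsFiniteMeasure β] {δ M : ℝ}
    (hM : 0 ≤ M)
    (h : ∀ B, MeasurableSet B → α.real B ≤ β.real B + δ) {g : X → ℝ} (hg : Measurable g)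
    (hg0 : ∀ x, 0 ≤ g x) (hgM : ∀ x, g x ≤ M) {B : Set X} (hB : MeasurableSet B) :
    ∫ x in B, g x ∂α ≤ ∫ x in B, g x ∂β + M * δ := by
  have hi : ∀ γ : Measure X, IsFiniteMeasure γ → Integrable g (γ.restrict B) := fun γ _ =>
    Integrable.of_bound hg.aestronglyMeasurable M (ae_of_all _ fun x => by
      rw [Real.norm_of_nonneg (hg0 x)]
      exact hgM x)
  rw [(hi α inferInstance).integral_eq_integral_Ioc_meas_le (M := M) (ae_of_all _ hg0)
    (ae_of_all _ hgM),
    (hi β inferInstance).integral_eq_integral_Ioc_meas_le (M := M) (ae_of_all _ hg0)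
    (ae_of_all _ hgM)]
  have hmono : ∀ γ : Measure X, IsFiniteMeasure γ →
      Antitone fun t : ℝ => (γ.restrict B).real {a : X | t ≤ g a} := fun γ _ s t hst =>
    measureReal_mono fun a ha => le_trans hst ha
  have hint : ∀ γ : Measure X, IsFiniteMeasure γ →
      IntegrableOn (fun t : ℝ => (γ.restrict B).real {a : X | t ≤ g a}) (Ioc 0 M) volume :=
    fun γ hγ => ((hmono γ hγ).locallyIntegrable.integrableOn_isCompact isCompact_Icc).mono_set
      Ioc_subset_Icc_self
  calc ∫ t in Ioc 0 M, (α.restrict B).real {a : X | t ≤ g a}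
      ≤ ∫ t in Ioc 0 M, ((β.restrict B).real {a : X | t ≤ g a} + δ) := by
        refine setIntegral_mono_on (hint α inferInstance)
          ((hint β inferInstance).add (integrableOn_const (by simp) (by simp)))
          measurableSet_Ioc fun t _ => ?_
        have hms : MeasurableSet {a : X | t ≤ g a} := measurableSet_le measurable_const hg
        rw [measureReal_restrict_apply hms, measureReal_restrict_apply hms]
        exact h _ (hms.inter hB)
    _ = (∫ t in Ioc 0 M, (β.restrict B).real {a : X | t ≤ g a}) + M * δ := by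
        rw [integral_add (hint β inferInstance) (integrableOn_const (by simp) (by simp))]
        simp [hM]

end tv

section tv2

variable {X : Type*} [TopologicalSpace X] [PolishSpace X] [MeasurableSpace X] [BorelSpace X]

/-- almost invariance passes to absolutely continuous measures -/
lemma AI_of_AI {ρ κ : Measure X} [IsFiniteMeasure ρ] [IsFiniteMeasure κ] (hκ : κ ≪ ρ)
    {h : ℕ → X → X} (hm : ∀ k, Measurable (h k))
    (hc : ∀ x, Tendsto (fun k => h k x) atTop (𝓝 x)) (hq : AI h ρ) : AI h κ := by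
  intro ε hε
  have hLD : κ.HaveLebesgueDecomposition ρ := Measure.haveLebesgueDecomposition_of_sigmaFinite κ ρ
  set F : X → ℝ := fun x => (κ.rnDeriv ρ x).toReal with hF
  have hFi : Integrable F ρ := Measure.integrable_toReal_rnDeriv
  have hF0 : ∀ x, 0 ≤ F x := fun x => ENNReal.toReal_nonneg
  have hFs : ∀ s : Set X, ∫ x in s, F x ∂ρ = κ.real s := fun s =>
    Measure.setIntegral_toReal_rnDeriv hκ s
  obtain ⟨g₀, hg₀, hg₀i⟩ := hFi.exists_boundedContinuous_integral_sub_le (ε := ε / 5)
    (by linarith)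
  set g : X → ℝ := fun x => max (g₀ x) 0 with hg
  have hgc : Continuous g := g₀.continuous.max continuous_const
  have hg0 : ∀ x, 0 ≤ g x := fun x => le_max_right _ _
  have hgb' : ∀ x, g x ≤ ‖g₀‖ := fun x =>
    max_le ((le_abs_self _).trans (g₀.norm_coe_le_norm x)) (norm_nonneg _)
  have hgb : ∀ x, ‖g x‖ ≤ ‖g₀‖ := fun x => by
    rw [Real.norm_of_nonneg (hg0 x)]
    exact hgb' x
  have hgi : Integrable g ρ := Integrable.of_bound hgc.aestronglyMeasurable ‖g₀‖
    (ae_of_all _ hgb)
  have hd : ∫ x, |F x - g x| ∂ρ ≤ ε / 5 := by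
    refine le_trans (integral_mono (hFi.sub hgi).abs (hFi.sub hg₀i).norm fun x => ?_) hg₀
    change |F x - max (g₀ x) 0| ≤ |F x - g₀ x|
    rcases le_total (g₀ x) 0 with h1 | h1
    · rw [max_eq_right h1, sub_zero]
      rw [abs_of_nonneg (hF0 x), abs_of_nonneg (by linarith [hF0 x])]
      linarith
    · rw [max_eq_left h1]
  have hdi : Integrable (fun x => |F x - g x|) ρ := (hFi.sub hgi).abs
  have hghi : ∀ k, Integrable (fun x => g (h k x)) ρ := fun k =>
    Integrable.of_bound (hgc.measurable.comp (hm k)).aestronglyMeasurable ‖g₀‖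
      (ae_of_all _ fun x => hgb _)
  -- continuity
  have hlim : Tendsto (fun k => ∫ x, |g x - g (h k x)| ∂ρ) atTop (𝓝 0) := by
    have h1 : Tendsto (fun k => ∫ x, |g x - g (h k x)| ∂ρ) atTop (𝓝 (∫ _, (0 : ℝ) ∂ρ)) := by
      refine tendsto_integral_of_dominated_convergence (fun _ => 2 * ‖g₀‖)
        (fun k => (hgi.sub (hghi k)).abs.aestronglyMeasurable) (integrable_const _)
        (fun k => ae_of_all _ fun x => ?_) (ae_of_all _ fun x => ?_)
      · rw [Real.norm_eq_abs, abs_abs]
        refine (abs_sub _ _).trans ?_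
        have := hgb x
        have := hgb (h k x)
        simp only [Real.norm_eq_abs] at *
        linarith
      · have h2 : Tendsto (fun k => g (h k x)) atTop (𝓝 (g x)) := (hgc.tendsto x).comp (hc x)
        have h3 := (tendsto_const_nhds (x := g x)).sub h2
        rw [sub_self] at h3
        simpa using h3.abs
    simpa using h1
  have hM0 : 0 ≤ ‖g₀‖ := norm_nonneg _
  have hη : 0 < ε / (5 * (1 + ‖g₀‖)) := by positivity
  filter_upwards [hq _ hη, hlim.eventually (gt_mem_nhds (show (0 : ℝ) < ε / 5 by linarith))]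
    with k hk1 hk2
  intro B hB
  have hB' := hm k hB
  -- step one
  have s1 : κ.real (h k ⁻¹' B) ≤ ∫ x in h k ⁻¹' B, g x ∂ρ + ε / 5 := by
    rw [← hFs]
    have h1 : ∫ x in h k ⁻¹' B, F x ∂ρ ≤ ∫ x in h k ⁻¹' B, (g x + |F x - g x|) ∂ρ :=
      integral_mono hFi.integrableOn (hgi.add hdi).integrableOn fun x => by
        have := le_abs_self (F x - g x)
        simp only
        linarith
    rw [integral_add hgi.integrableOn hdi.integrableOn] at h1
    have h2 : ∫ x in h k ⁻¹' B, |F x - g x| ∂ρ ≤ ∫ x, |F x - g x| ∂ρ :=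
      setIntegral_le_integral hdi (ae_of_all _ fun x => abs_nonneg _)
    linarith
  have s2 : ∫ x in h k ⁻¹' B, g x ∂ρ ≤ ∫ x in h k ⁻¹' B, g (h k x) ∂ρ + ε / 5 := by
    have hi : Integrable (fun x => |g x - g (h k x)|) ρ := (hgi.sub (hghi k)).abs
    have h1 : ∫ x in h k ⁻¹' B, g x ∂ρ ≤ ∫ x in h k ⁻¹' B, (g (h k x) + |g x - g (h k x)|) ∂ρ :=
      integral_mono hgi.integrableOn ((hghi k).add hi).integrableOn fun x => by
        have := le_abs_self (g x - g (h k x))
        simp only
        linarith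
    rw [integral_add (hghi k).integrableOn hi.integrableOn] at h1
    have h2 : ∫ x in h k ⁻¹' B, |g x - g (h k x)| ∂ρ ≤ ∫ x, |g x - g (h k x)| ∂ρ :=
      setIntegral_le_integral hi (ae_of_all _ fun x => abs_nonneg _)
    linarith
  have s3 : ∫ x in h k ⁻¹' B, g (h k x) ∂ρ ≤ ∫ x in B, g x ∂ρ + ε / 5 := by
    have h1 : ∫ x in h k ⁻¹' B, g (h k x) ∂ρ = ∫ x in B, g x ∂(ρ.map (h k)) :=
      (setIntegral_map hB hgc.aestronglyMeasurable (hm k).aemeasurable).symm
    rw [h1]
    have : IsFiniteMeasure (ρ.map (h k)) := Measure.isFiniteMeasure_map ρ (h k)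
    have h2 := integral_tv (α := ρ.map (h k)) (β := ρ) hM0 (fun C hC => by
      rw [Measure.real, Measure.map_apply (hm k) hC]
      exact hk1 C hC) hgc.measurable hg0 hgb' hB
    have h3 : ‖g₀‖ * (ε / (5 * (1 + ‖g₀‖))) ≤ (1 + ‖g₀‖) * (ε / (5 * (1 + ‖g₀‖))) :=
      mul_le_mul_of_nonneg_right (by linarith) hη.le
    have h4 : (1 + ‖g₀‖) * (ε / (5 * (1 + ‖g₀‖))) = ε / 5 := by
      field_simp
    linarith
  have s6 : ∫ x in B, g x ∂ρ ≤ κ.real B + ε / 5 := by
    rw [← hFs]
    have h1 : ∫ x in B, g x ∂ρ ≤ ∫ x in B, (F x + |F x - g x|) ∂ρ :=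
      integral_mono hgi.integrableOn (hFi.add hdi).integrableOn fun x => by
        have := neg_abs_le (F x - g x)
        simp only
        linarith
    rw [integral_add hFi.integrableOn hdi.integrableOn] at h1
    have h2 : ∫ x in B, |F x - g x| ∂ρ ≤ ∫ x, |F x - g x| ∂ρ :=
      setIntegral_le_integral hdi (ae_of_all _ fun x => abs_nonneg _)
    linarith
  linarith

/-- A measure each of whose translates is equal to it or singular to it is preserved by the elements
which almost preserve a measure not singular to it. -/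
lemma eventually_stab {G : Type*} [Group G] [TopologicalSpace G] [MulAction G X]
    [ContinuousSMul G X] {μ ρ : Measure X} [IsFiniteMeasure μ] [IsFiniteMeasure ρ]
    (hz : ∀ g : G, μ.map (fun x => g • x) = μ ∨ μ ⟂ₘ μ.map fun x => g • x)
    (hns : ¬ μ ⟂ₘ ρ) {g : ℕ → G} (hg : Tendsto g atTop (𝓝 1))
    (hA : AI (fun k x => g k • x) ρ) : ∀ᶠ k in atTop, μ.map (fun x => g k • x) = μ := by
  have hm : ∀ k, Measurable fun x : X => g k • x := fun k => measurable_const_smul _
  have hκ0 := inf_ne hns
  have hκμ : μ ⊓ ρ ≤ μ := inf_le_left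
  have hκρ : μ ⊓ ρ ≤ ρ := inf_le_right
  have hfin : IsFiniteMeasure (μ ⊓ ρ) := isFiniteMeasure_of_le μ hκμ
  have hAI : AI (fun k x => g k • x) (μ ⊓ ρ) := by
    refine AI_of_AI hκρ.absolutelyContinuous hm (fun x => ?_) hA
    have h1 := hg.smul_const x
    rwa [one_smul] at h1
  have hpos : 0 < (μ ⊓ ρ).real univ := by
    rw [measureReal_def]
    refine ENNReal.toReal_pos ?_ (measure_ne_top _ _)
    rwa [Measure.measure_univ_ne_zero]
  filter_upwards [ov_of_AI hm hκμ hAI (c := (μ ⊓ ρ).real univ / 2) (by linarith)] with k hk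
  rcases hz (g k) with h1 | h1
  · exact h1
  · exact absurd h1 (hk.not_sing (by linarith))

end tv2

end Pool.Agent.V119.LD
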